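import Pool.Agent.W910.WZ.Final

/-!
# PFA implies that there is no Wetzel family

A Wetzel family is a set `F` of entire functions that takes, at every point, fewer values than it
has members.  The Proper Forcing Axiom implies `2 ^ aleph_0 = aleph_2`, Martin's axiom and the open
colouring axiom of Abraham, Rubin and Shelah, and the last one shows that a family of entire
functions with at most `aleph_1` values at each of `aleph_1` points has at most `aleph_1` members.
So PFA refutes the existence of Wetzel families.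
-/

set_option autoImplicit false

open Set Cardinal

namespace Pool.Agent.Results.MP_eaf9cc_lc.NoWetzel

open Pool.Agent.Helper647.FU (CCC MeetsAll PFA)
open Pool.Agent.W910.WZ (IsWetzel)

/-- Martin's axiom: every ccc partial order has filters meeting any fewer than continuum many dense
sets. -/
def MartinAxiom : Prop :=
  ∀ (P : Type) [PartialOrder P] [Nonempty P], CCC P →
    ∀ 𝒟 : Set (Set P), #𝒟 < #ℝ → (∀ D ∈ 𝒟, ∀ p : P, ∃ q ∈ D, q ≤ p) → ∃ G : Set P, MeetsAll 𝒟 G

/-- The Proper Forcing Axiom implies Martin's axiom, `2 ^ aleph_0 = aleph_2` and that there is no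
Wetzel family. -/
theorem result : PFA → MartinAxiom ∧ #ℝ = ℵ_ 2 ∧ ¬ ∃ F : Set (ℂ → ℂ), IsWetzel F := by
  intro h
  have hc := Pool.Agent.W910.WZ.Final.c_eq_of_PFA h
  refine ⟨?_, hc, Pool.Agent.W910.WZ.Final.no_wetzel_of_OCA
    (Pool.Agent.W910.WZ.Final.oca_of_PFA h) hc⟩
  intro P _ _ hP 𝒟 h𝒟 hd
  refine Pool.Agent.Helper647.FU.J8.MA1_of_PFA h P hP 𝒟 ?_ hd
  rw [hc] at h𝒟
  have hsucc : (ℵ_ 2 : Cardinal) = Order.succ ℵ₁ := by
    rw [succ_aleph]
    norm_num
  rw [hsucc] at h𝒟
  exact Order.lt_succ_iff.1 h𝒟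

end Pool.Agent.Results.MP_eaf9cc_lc.NoWetzel
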